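import Pool.Agent.Results.MP_05f553_nt.FewExceptions
import Pool.Agent.V35.WR

/-!
# Philippon's inequality for ALL rational numbers `y` near almost every point

The starting theorem `FewExceptions` bounds the number of the pairs `(x, y)` with `H(y) ≤ Y` which violate Philippon's
inequality; it says nothing about given `y`. Here: for almost every real number `η` and `w > 2 / α`, all but finitely many
of the rational numbers `y` with `|y - η| ≤ H(y) ^ (-w)` satisfy the inequality with ALL `x`; and for `w > 1 / (α B)` and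
every `x` all but finitely many of these `y` satisfy the inequality with `x`. The exceptional `η` have Hausdorff dimension at
most `(2 / α) / w` and `(1 / (α B)) / w`, respectively, also in the `p`-adic numbers and in every other metric space to
which the rational numbers are mapped. For `w < 2` there are infinitely many rational numbers `y` with
`|y - η| ≤ H(y) ^ (-w)` for every irrational `η`.
-/

set_option autoImplicit false

open MeasureTheory

namespace Pool.Agent.Results.MP_05f553_nt.PairsNearPoints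

open FewExceptions Pool.Agent.V35.WR Pool.Agent.V35.WP

/-- the height `max (|a|, |b|)` of `y = a / b` in lowest terms -/
noncomputable def hgt (y : ℚ) : ℝ := max |((y.num : ℤ) : ℝ)| ((y.den : ℕ) : ℝ)

/-- `(x, y)` is a pair to which the inequality applies -/
def Admissible (B : ℕ) (x y : ℚ) : Prop := x ≠ 0 ∧ y ≠ 0 ∧ x * y ^ B ≠ 1 ∧ x * y ^ B ≠ -1

/-- the rational numbers `y` for which the inequality is false for some `x` -/
def BadY (B : ℕ) (α β ε : ℝ) : Set ℚ := {y | ∃ x, Admissible B x y ∧ ¬ Holds B α β ε x y}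

/-- the rational numbers `y` for which the inequality is false for the given `x` -/
def BadYx (B : ℕ) (α β ε : ℝ) (x : ℚ) : Set ℚ := {y | Admissible B x y ∧ ¬ Holds B α β ε x y}

lemma one_le_hgt (y : ℚ) : 1 ≤ hgt y := le_max_of_le_right (by exact_mod_cast y.den_pos)

/-- **Theorem.** Let `α ≥ 1`, `β ≥ 0`, `ε < 1/2`, `ε B ≥ 2` and `w > 0`. For every metric space `V` and every map
`f : ℚ → V` (for instance the embedding in the real numbers or in a field of `p`-adic numbers): (1) the points `z` of `V`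
such that for infinitely many `y` with `dist (f y) z ≤ H(y) ^ (-w)` the inequality fails for some `x` form a set of Hausdorff
dimension at most `(2 / α) / w`; (2) the points `z` such that for some `x` the inequality fails for infinitely many `y` with
`dist (f y) z ≤ H(y) ^ (-w)` form a set of dimension at most `(1 / (α B)) / w`. (3) If `w > 2 / α`, then for almost every
real number `η` all but finitely many `y` with `|y - η| ≤ H(y) ^ (-w)` satisfy the inequality for all `x`. (4) If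
`w > 1 / (α B)`, then for almost every real number `η` and all `x`, all but finitely many `y` with
`|y - η| ≤ H(y) ^ (-w)` satisfy the inequality for `x`. -/
theorem result (B : ℕ) (α β ε w : ℝ) (hα : 1 ≤ α) (hβ : 0 ≤ β) (hε : ε < 1 / 2) (hB : 2 ≤ ε * B) (hw : 0 < w) :
    (∀ (V : Type) [MetricSpace V] (f : ℚ → V),
      dimH {z : V | {y : ℚ | y ∈ BadY B α β ε ∧ dist (f y) z ≤ (hgt y) ^ (-w)}.Infinite} ≤
        ENNReal.ofReal ((2 / α) / w)) ∧
    (∀ (V : Type) [MetricSpace V] (f : ℚ → V),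
      dimH {z : V | ∃ x : ℚ, {y : ℚ | y ∈ BadYx B α β ε x ∧ dist (f y) z ≤ (hgt y) ^ (-w)}.Infinite} ≤
        ENNReal.ofReal ((1 / (α * B)) / w)) ∧
    (2 / α < w → ∀ᵐ η : ℝ, {y : ℚ | |(y : ℝ) - η| ≤ (hgt y) ^ (-w) ∧
      ¬ ∀ x : ℚ, Admissible B x y → Holds B α β ε x y}.Finite) ∧
    (1 / (α * B) < w → ∀ᵐ η : ℝ, ∀ x : ℚ, {y : ℚ | |(y : ℝ) - η| ≤ (hgt y) ^ (-w) ∧
      ¬ (Admissible B x y → Holds B α β ε x y)}.Finite) := by
  have hα0 : 0 < α := by linarith
  have hB0 : (0 : ℝ) < B := by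
    rcases (Nat.cast_nonneg B : (0 : ℝ) ≤ B).eq_or_lt with h | h
    · rw [← h] at hB
      linarith
    · exact h
  have hs1 : 0 ≤ 2 / α := by positivity
  have hs2 : 0 ≤ 1 / (α * B) := by positivity
  have c1 : ∀ δ : ℝ, 0 < δ → ∃ C : ℝ, ∀ X : ℝ, 1 ≤ X →
      {y | y ∈ BadY B α β ε ∧ hgt y ≤ X}.Finite ∧
        ({y | y ∈ BadY B α β ε ∧ hgt y ≤ X}.ncard : ℝ) ≤ C * X ^ (2 / α + δ) := by
    intro δ hδ
    obtain ⟨C, hC⟩ := FewExceptions.result B α β ε δ hα hβ hε hB hδ
    refine ⟨C, fun X hX => ?_⟩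
    obtain ⟨h1, h2, -⟩ := hC X hX
    have hsub : {y | y ∈ BadY B α β ε ∧ hgt y ≤ X} ⊆ Prod.snd '' Exceptions B α β ε X := by
      rintro y ⟨⟨x, ⟨hx, hy, h3, h4⟩, h5⟩, h6⟩
      exact ⟨(x, y), ⟨hx, hy, h3, h4, h6, h5⟩, rfl⟩
    refine ⟨(h1.image _).subset hsub, le_trans ?_ h2⟩
    exact_mod_cast (Set.ncard_le_ncard hsub (h1.image _)).trans (Set.ncard_image_le h1)
  have c2 : ∀ x : ℚ, ∀ δ : ℝ, 0 < δ → ∃ C : ℝ, ∀ X : ℝ, 1 ≤ X →
      {y | y ∈ BadYx B α β ε x ∧ hgt y ≤ X}.Finite ∧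
        ({y | y ∈ BadYx B α β ε x ∧ hgt y ≤ X}.ncard : ℝ) ≤ C * X ^ (1 / (α * B) + δ) := by
    intro x δ hδ
    obtain ⟨C, hC⟩ := FewExceptions.result B α β ε δ hα hβ hε hB hδ
    refine ⟨C, fun X hX => ?_⟩
    obtain ⟨h1, -, h2⟩ := hC X hX
    have hfin : {y : ℚ | (x, y) ∈ Exceptions B α β ε X}.Finite :=
      h1.preimage (Set.injOn_of_injective fun a b hab => (Prod.mk.inj hab).2)
    have hsub : {y | y ∈ BadYx B α β ε x ∧ hgt y ≤ X} ⊆ {y : ℚ | (x, y) ∈ Exceptions B α β ε X} := by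
      rintro y ⟨⟨⟨hx, hy, h3, h4⟩, h5⟩, h6⟩
      exact ⟨hx, hy, h3, h4, h6, h5⟩
    refine ⟨hfin.subset hsub, le_trans ?_ (h2 x)⟩
    exact_mod_cast Set.ncard_le_ncard hsub hfin
  have d1 : ∀ (V : Type) [MetricSpace V] (f : ℚ → V),
      dimH {z : V | {y : ℚ | y ∈ BadY B α β ε ∧ dist (f y) z ≤ (hgt y) ^ (-w)}.Infinite} ≤
        ENNReal.ofReal ((2 / α) / w) := by
    intro V _ f
    exact dim_badNear hs1 hw (fun y _ => one_le_hgt y) c1
  have d2 : ∀ (V : Type) [MetricSpace V] (f : ℚ → V),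
      dimH {z : V | ∃ x : ℚ, {y : ℚ | y ∈ BadYx B α β ε x ∧ dist (f y) z ≤ (hgt y) ^ (-w)}.Infinite} ≤
        ENNReal.ofReal ((1 / (α * B)) / w) := by
    intro V _ f
    have he : {z : V | ∃ x : ℚ, {y : ℚ | y ∈ BadYx B α β ε x ∧ dist (f y) z ≤ (hgt y) ^ (-w)}.Infinite} =
        ⋃ x : ℚ, {z : V | {y : ℚ | y ∈ BadYx B α β ε x ∧ dist (f y) z ≤ (hgt y) ^ (-w)}.Infinite} := by
      ext z
      simp only [Set.mem_iUnion, Set.mem_ofPred_eq]
    rw [he, dimH_iUnion]
    exact iSup_le fun x => dim_badNear hs2 hw (fun y _ => one_le_hgt y) (c2 x)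
  refine ⟨d1, d2, fun hlt => ?_, fun hlt => ?_⟩
  · have h1 := null_real (d1 ℝ (fun y => (y : ℝ))) ((div_lt_one hw).2 hlt)
    filter_upwards [measure_eq_zero_iff_ae_notMem.1 h1] with η hη
    have hη' := Set.not_infinite.1 hη
    refine hη'.subset ?_
    rintro y ⟨h2, h3⟩
    push Not at h3
    exact ⟨h3, by rwa [Real.dist_eq]⟩
  · have h1 := null_real (d2 ℝ (fun y => (y : ℝ))) ((div_lt_one hw).2 hlt)
    filter_upwards [measure_eq_zero_iff_ae_notMem.1 h1] with η hη
    intro x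
    have hη' : ¬ {y : ℚ | y ∈ BadYx B α β ε x ∧ dist (y : ℝ) η ≤ (hgt y) ^ (-w)}.Infinite := fun h => hη ⟨x, h⟩
    refine (Set.not_infinite.1 hη').subset ?_
    rintro y ⟨h2, h3⟩
    push Not at h3
    exact ⟨h3, by rwa [Real.dist_eq]⟩

end Pool.Agent.Results.MP_05f553_nt.PairsNearPoints
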