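import Pool.Agent.Results.MP_05f553_nt.SequenceHeights
import Pool.Agent.V11001.KM.NatSet

/-!
# Philippon's inequality for all the rationals with a coordinate near the powers of almost every real number

Let `ν n / log n → ∞`, for example `ν n = n`, and `A ≥ 1`. For almost every real `z > 1` and all `θ < 1 - 2 A / α`
Philippon's inequality holds for ALL `x` and all `y` with a numerator `± m` or denominator `m` such that
`|m - z ^ (ν n)| ≤ z ^ (θ ν n)` for some `n` and of height at most `m ^ A`, with finitely many exceptional `m`. If the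
exceptions may depend on `x`, then `2 A / α` can be replaced by `A / (α B)`.
-/

set_option autoImplicit false

namespace Pool.Agent.Results.MP_05f553_nt.RationalsNearPowers

open Pool.Agent.V11001.KM
open SequenceHeights (Good Bad BadAt count countAt)

/-- **Theorem.** Let `α ≥ 1`, `β ≥ 0`, `ε < 1/2`, `ε B ≥ 2`, `A ≥ 1`, let `ν n / log n → ∞` and let `U` be a countable set
of real numbers. `Good B α β ε A x m`: the inequality holds for this `x` and all `y ≠ 0` of height at most `m ^ A` with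
numerator `± m` or denominator `m` (and `x y ^ B ≠ ± 1`).
(1) For `θ < 1` there is a set `E` of Hausdorff dimension at most `(2 A / α) / (1 - θ)` such that for each `z > 1` outside
`E` and each positive `b` in `U` only finitely many `m` with `|m - b z ^ (ν n)| ≤ z ^ (θ ν n)` for some `n` are not good for
all `x ≠ 0`.
(2) For almost every real `z > 1` this holds for all `θ < 1 - 2 A / α`.
(3) For `θ < 1` there is a set `E` of Hausdorff dimension at most `(A / (α B)) / (1 - θ)` such that for each `z > 1`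
outside `E`, each positive `b` in `U` and each `x ≠ 0` only finitely many `m` with `|m - b z ^ (ν n)| ≤ z ^ (θ ν n)` for
some `n` are not good for this `x`.
(4) For almost every real `z > 1` this holds for all `θ < 1 - A / (α B)`. -/
theorem result (B : ℕ) (α β ε A : ℝ) (hα : 1 ≤ α) (hβ : 0 ≤ β) (hε : ε < 1 / 2) (hB : 2 ≤ ε * B) (hA : 1 ≤ A)
    (ν : ℕ → ℝ) (hν : Fast ν) (U : Set ℝ) (hU : U.Countable) :
    (∀ θ : ℝ, θ < 1 → ∃ E : Set ℝ, dimH E ≤ ENNReal.ofReal (2 * A / α / (1 - θ)) ∧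
      ∀ z : ℝ, 1 < z → z ∉ E → ∀ b ∈ U, 0 < b →
        {m : ℕ | Near ν θ b z m ∧ ¬ ∀ x : ℚ, x ≠ 0 → Good B α β ε A x m}.Finite) ∧
    (∀ᵐ z : ℝ, 1 < z → ∀ θ : ℝ, θ < 1 - 2 * A / α → ∀ b ∈ U, 0 < b →
      {m : ℕ | Near ν θ b z m ∧ ¬ ∀ x : ℚ, x ≠ 0 → Good B α β ε A x m}.Finite) ∧
    (∀ θ : ℝ, θ < 1 → ∃ E : Set ℝ, dimH E ≤ ENNReal.ofReal (A / (α * B) / (1 - θ)) ∧
      ∀ z : ℝ, 1 < z → z ∉ E → ∀ b ∈ U, 0 < b → ∀ x : ℚ, x ≠ 0 →
        {m : ℕ | Near ν θ b z m ∧ ¬ Good B α β ε A x m}.Finite) ∧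
    (∀ᵐ z : ℝ, 1 < z → ∀ θ : ℝ, θ < 1 - A / (α * B) → ∀ b ∈ U, 0 < b → ∀ x : ℚ, x ≠ 0 →
      {m : ℕ | Near ν θ b z m ∧ ¬ Good B α β ε A x m}.Finite) := by
  have hA0 : 0 < A := by linarith
  have hα0 : 0 < α := by linarith
  have e1 : 2 * A / α = A * (2 / α) := by ring
  have e2 : A / (α * B) = A * (1 / (α * B)) := by ring
  rw [e1, e2]
  have hs1 : 0 ≤ A * (2 / α) := by positivity
  have hs2 : 0 ≤ A * (1 / (α * B)) := by positivity
  refine ⟨fun θ hθ => ?_, ?_, fun θ hθ => ?_, ?_⟩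
  · obtain ⟨E, h1, h2⟩ := family (fun m : ℕ => (m : ℝ)) hν hs1 hθ U hU (J := Unit)
      (fun _ => Bad B α β ε A) (fun _ δ hδ => count_of_nat _ hs1 hδ (count B α β ε A hα hβ hε hB hA δ hδ))
    refine ⟨E, h1, fun z hz hzE b hb hb0 => (h2 z hz hzE b hb hb0 ()).subset ?_⟩
    rintro m ⟨g1, g2⟩
    push Not at g2
    exact ⟨g2, g1⟩
  · filter_upwards [ae_family (fun m : ℕ => (m : ℝ)) hν hs1 U hU (J := Unit)
      (fun _ => Bad B α β ε A) (fun _ δ hδ => count_of_nat _ hs1 hδ (count B α β ε A hα hβ hε hB hA δ hδ))]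
      with z hz hz1 θ hθ b hb hb0
    refine (hz hz1 θ hθ b hb hb0 ()).subset ?_
    rintro m ⟨g1, g2⟩
    push Not at g2
    exact ⟨g2, g1⟩
  · obtain ⟨E, h1, h2⟩ := family (fun m : ℕ => (m : ℝ)) hν hs2 hθ U hU (J := {x : ℚ // x ≠ 0})
      (fun x => BadAt B α β ε A x) (fun x δ hδ => count_of_nat _ hs2 hδ (countAt B α β ε A hα hβ hε hB hA x x.2 δ hδ))
    refine ⟨E, h1, fun z hz hzE b hb hb0 x hx => (h2 z hz hzE b hb hb0 ⟨x, hx⟩).subset ?_⟩
    rintro m ⟨g1, g2⟩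
    exact ⟨g2, g1⟩
  · filter_upwards [ae_family (fun m : ℕ => (m : ℝ)) hν hs2 U hU (J := {x : ℚ // x ≠ 0})
      (fun x => BadAt B α β ε A x) (fun x δ hδ => count_of_nat _ hs2 hδ (countAt B α β ε A hα hβ hε hB hA x x.2 δ hδ))]
      with z hz hz1 θ hθ b hb hb0 x hx
    refine (hz hz1 θ hθ b hb hb0 ⟨x, hx⟩).subset ?_
    rintro m ⟨g1, g2⟩
    exact ⟨g2, g1⟩

end Pool.Agent.Results.MP_05f553_nt.RationalsNearPowers
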