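import Pool.Agent.H78R2.Phil.Main

/-!
Philippon's conjecture (MP_05f553_nt): Q1 is equivalent to the weak abc conjecture, and one
instance of the inequality improves itself to `α = 1`, every `ε ∈ (0, 1/2)` and all large `B`.
-/

namespace Pool.Agent.Results.MP_05f553_nt.WeakAbcEquivalence

open Pool.Agent.H78R2.Phil Pool.Agent.H78R2.Abc

/-- The inequality of Q1 with the constants `ε, α, β` and the exponent `B`. -/
def Philippon (ε α β : ℝ) (B : ℕ) : Prop :=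
  ∀ x y : ℚ, x ≠ 0 → y ≠ 0 → x * y ^ B ≠ 1 → x * y ^ B + 1 ≠ 0 →
    -(∑ᶠ p ∈ {p : ℕ | p.Prime ∧ padicNorm p (x * y ^ B + 1) < 1},
        Real.log ((padicNorm p (x * y ^ B + 1) : ℚ) : ℝ))
      ≤ (B : ℝ) * (α * Real.log (max |(x.num : ℝ)| (x.den : ℝ))
          + ε * Real.log (max |(y.num : ℝ)| (y.den : ℝ))
          + (α * (B : ℝ) + ε) *
              (β + ∑ᶠ p ∈ {p : ℕ | p.Prime ∧ padicNorm p (x * y ^ B + 1) < 1},
                Real.log (p : ℝ)))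

/-- The statement of Q1. -/
def Q1 : Prop :=
  ∃ B : ℕ, 0 < B ∧ ∃ ε α β : ℝ, 0 < ε ∧ ε < 1 / 2 ∧ 1 ≤ α ∧ 0 ≤ β ∧ Philippon ε α β B

/-- `c ≤ κ R(abc)^K` for all coprime positive `a + b = c`. -/
def AbcBound (K κ : ℝ) : Prop :=
  ∀ a b c : ℕ, 0 < a → 0 < b → Nat.Coprime a b → a + b = c →
    (c : ℝ) ≤ κ * ((∏ p ∈ (a * b * c).primeFactors, p : ℕ) : ℝ) ^ K

theorem one_le_T {B : ℕ} {α ε : ℝ} (hB : 0 < B) (hε : 0 < ε) (hα : 1 ≤ α) :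
    1 ≤ (B : ℝ) * (α * B + ε) := by
  have hB1 : (1 : ℝ) ≤ B := by exact_mod_cast hB
  have h1 : 1 ≤ α * B := by nlinarith
  have h2 : 1 ≤ α * B + ε := by linarith
  nlinarith

theorem improve {B₀ : ℕ} {ε₀ α₀ β₀ : ℝ} (hB₀ : 0 < B₀) (hε₀ : 0 < ε₀) (hε₁ : ε₀ < 1 / 2)
    (hα : 1 ≤ α₀) (hβ : 0 ≤ β₀) (h : Philippon ε₀ α₀ β₀ B₀) :
    AbcBound (2 * (B₀ * (α₀ * B₀ + ε₀)) / (1 - ε₀))
      (2 * Real.exp (B₀ * (α₀ * B₀ + ε₀) * β₀ / (1 - ε₀))) :=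
  abc_of_ineq hε₀ (by linarith) (by linarith) hβ hB₀ h

/-- (1) Q1 holds if and only if there are `K` and `κ` with `c ≤ κ R(abc)^K` for all coprime
`a + b = c`.
(2) If `c ≤ κ R(abc)^K` with `K, κ ≥ 1`, then Philippon's inequality holds with `α = 1`,
`β = log κ`, every `ε ∈ (0, 1/2)` and every `B ≥ 2 K / ε`.
(3) If Philippon's inequality holds for one quadruple `(ε₀, α₀, β₀, B₀)`, then
`c ≤ κ R(abc)^K` with `K = 2 T / (1 - ε₀)`, `κ = 2 exp (T β₀ / (1 - ε₀))`,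
`T = B₀ (α₀ B₀ + ε₀)`, and Philippon's inequality holds with `α = 1`,
`β = log 2 + T β₀ / (1 - ε₀)`, every `ε ∈ (0, 1/2)` and every `B ≥ 4 T / ((1 - ε₀) ε)`. -/
theorem result :
    (Q1 ↔ ∃ K κ : ℝ, AbcBound K κ) ∧
    (∀ K κ : ℝ, 1 ≤ K → 1 ≤ κ → AbcBound K κ → ∀ ε : ℝ, 0 < ε → ε < 1 / 2 →
      ∀ B : ℕ, 2 * K / ε ≤ B → Philippon ε 1 (Real.log κ) B) ∧
    (∀ (B₀ : ℕ) (ε₀ α₀ β₀ : ℝ), 0 < B₀ → 0 < ε₀ → ε₀ < 1 / 2 → 1 ≤ α₀ → 0 ≤ β₀ →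
      Philippon ε₀ α₀ β₀ B₀ →
        AbcBound (2 * (B₀ * (α₀ * B₀ + ε₀)) / (1 - ε₀))
          (2 * Real.exp (B₀ * (α₀ * B₀ + ε₀) * β₀ / (1 - ε₀))) ∧
        ∀ ε : ℝ, 0 < ε → ε < 1 / 2 → ∀ B : ℕ,
          4 * (B₀ * (α₀ * B₀ + ε₀)) / ((1 - ε₀) * ε) ≤ B →
            Philippon ε 1 (Real.log 2 + B₀ * (α₀ * B₀ + ε₀) * β₀ / (1 - ε₀)) B) := by
  have h2 : ∀ K κ : ℝ, 1 ≤ K → 1 ≤ κ → AbcBound K κ → ∀ ε : ℝ, 0 < ε → ε < 1 / 2 →
      ∀ B : ℕ, 2 * K / ε ≤ B → Philippon ε 1 (Real.log κ) B := by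
    intro K κ hK hκ h ε hε hε1 B hB
    refine ineq_of_abc hK hκ h hε (by linarith) ?_
    rw [div_le_iff₀ hε] at hB
    linarith
  refine ⟨⟨?_, ?_⟩, h2, ?_⟩
  · rintro ⟨B, hB, ε, α, β, hε, hε1, hα, hβ, h⟩
    exact ⟨_, _, improve hB hε hε1 hα hβ h⟩
  · rintro ⟨K, κ, h⟩
    have h' : AbcBound (max K 1) (max κ 1) := by
      intro a b c ha hb hab hc
      have hpos : 0 < a * b * c := by
        subst hc
        positivity
      have hR1 : (1 : ℝ) ≤ ((∏ p ∈ (a * b * c).primeFactors, p : ℕ) : ℝ) := by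
        have : 0 < ∏ p ∈ (a * b * c).primeFactors, p :=
          Finset.prod_pos fun p hp => (Nat.prime_of_mem_primeFactors hp).pos
        exact_mod_cast this
      refine (h a b c ha hb hab hc).trans ?_
      have h1 : ((∏ p ∈ (a * b * c).primeFactors, p : ℕ) : ℝ) ^ K ≤
          ((∏ p ∈ (a * b * c).primeFactors, p : ℕ) : ℝ) ^ (max K 1) :=
        Real.rpow_le_rpow_of_exponent_le hR1 (le_max_left _ _)
      have h3 : 0 ≤ ((∏ p ∈ (a * b * c).primeFactors, p : ℕ) : ℝ) ^ K := by positivity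
      exact mul_le_mul (le_max_left _ _) h1 h3 (le_trans zero_le_one (le_max_right _ _))
    obtain ⟨B, hB⟩ := exists_nat_ge (2 * (max K 1) / (1 / 4 : ℝ))
    have hB0 : 0 < B := by
      have h4 : (0 : ℝ) < 2 * (max K 1) / (1 / 4 : ℝ) := by
        have : (0 : ℝ) < max K 1 := lt_of_lt_of_le one_pos (le_max_right _ _)
        positivity
      exact_mod_cast lt_of_lt_of_le h4 hB
    exact ⟨B, hB0, 1 / 4, 1, Real.log (max κ 1), by norm_num, by norm_num, le_rfl,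
      Real.log_nonneg (le_max_right _ _),
      h2 _ _ (le_max_right _ _) (le_max_right _ _) h' _ (by norm_num) (by norm_num) B hB⟩
  · intro B₀ ε₀ α₀ β₀ hB₀ hε₀ hε₁ hα hβ h
    have hT := one_le_T hB₀ hε₀ hα
    have habc := improve hB₀ hε₀ hε₁ hα hβ h
    refine ⟨habc, fun ε hε hε1 B hB => ?_⟩
    have h1ε : 0 < 1 - ε₀ := by linarith
    have hK : 1 ≤ 2 * (B₀ * (α₀ * B₀ + ε₀)) / (1 - ε₀) := by
      rw [le_div_iff₀ h1ε]
      linarith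
    have hκ : 1 ≤ 2 * Real.exp (B₀ * (α₀ * B₀ + ε₀) * β₀ / (1 - ε₀)) := by
      have : 1 ≤ Real.exp (B₀ * (α₀ * B₀ + ε₀) * β₀ / (1 - ε₀)) :=
        Real.one_le_exp (by positivity)
      linarith
    have e : Real.log (2 * Real.exp (B₀ * (α₀ * B₀ + ε₀) * β₀ / (1 - ε₀))) =
        Real.log 2 + B₀ * (α₀ * B₀ + ε₀) * β₀ / (1 - ε₀) := by
      rw [Real.log_mul (by norm_num) (Real.exp_pos _).ne', Real.log_exp]
    rw [← e]
    refine h2 _ _ hK hκ habc ε hε hε1 B ?_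
    have e2 : 2 * (2 * (B₀ * (α₀ * B₀ + ε₀)) / (1 - ε₀)) / ε =
        4 * (B₀ * (α₀ * B₀ + ε₀)) / ((1 - ε₀) * ε) := by
      field_simp
      ring
    rw [e2]
    exact hB

end Pool.Agent.Results.MP_05f553_nt.WeakAbcEquivalence
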